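import Pool.Agent.Helper33.HM.Iter

/-!
# Project HM, module Q: stems and forced values
-/

set_option autoImplicit false
set_option linter.unusedSectionVars false

namespace Pool.Agent.Helper33.HM

universe u v

namespace Cond

variable {I : Type u} [LinearOrder I] [WellFoundedLT I]

theorem lt_cons {p : Cond I} {i j : I} {hp : p.lt i} {s : List ℕ} {m : ℕ}
    {f : ℕ → ℕ → ℕ → Cond I} {hf : ∀ l n k, (f l n k).lt i} {v : ℕ → ℕ → ℕ → ℕ} :
    (cons p i hp s m f hf v).lt j ↔ i < j := Iff.rfl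

theorem ent_cons {p q : Cond I} {i j : I} {hp : p.lt i} {s t : List ℕ} {m m' : ℕ}
    {f g : ℕ → ℕ → ℕ → Cond I} {hf : ∀ l n k, (f l n k).lt i} {v w : ℕ → ℕ → ℕ → ℕ} :
    Ent (cons p i hp s m f hf v) j q t m' g w ↔
      (j = i ∧ q = p ∧ t = s ∧ m' = m ∧ g = f ∧ w = v) ∨ Ent p j q t m' g w := by
  constructor
  · rintro (⟨h1, h2, h3, h4, h5, h6⟩ | h)
    · refine Or.inl ⟨h1, Subtype.ext h2, h3, h4, ?_, h6⟩
      funext l n k
      exact Subtype.ext (congrFun (congrFun (congrFun h5 l) n) k)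
    · exact Or.inr h
  · rintro (⟨rfl, rfl, rfl, rfl, rfl, rfl⟩ | h)
    · exact Or.inl ⟨rfl, rfl, rfl, rfl, rfl, rfl⟩
    · exact Or.inr h

theorem le_cons_iff {q p : Cond I} {i : I} {hp : p.lt i} {s : List ℕ} {m : ℕ}
    {f : ℕ → ℕ → ℕ → Cond I} {hf : ∀ l n k, (f l n k).lt i} {v : ℕ → ℕ → ℕ → ℕ} :
    q ≤ cons p i hp s m f hf v ↔ q ≤ p ∧ ∃ q' t m' g w, Ent q i q' t m' g w ∧ s <+: t ∧
      (∀ l < m, ∃ l' < m', g l' = f l ∧ w l' = v l) ∧
      ∀ (n : ℕ) (h : n < t.length), s.length ≤ n → ∀ l < m, Frc i q' (f l n) (v l n) t[n] := by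
  constructor
  · intro h
    rw [le_iff] at h
    constructor
    · rw [le_iff]
      intro j q' t m' g w he
      exact h j q' t m' g w (ent_cons.2 (Or.inr he))
    · exact h i p s m f v (ent_cons.2 (Or.inl ⟨rfl, rfl, rfl, rfl, rfl, rfl⟩))
  · rintro ⟨h1, h2⟩
    rw [le_iff] at h1 ⊢
    intro j q' t m' g w he
    rcases ent_cons.1 he with ⟨rfl, rfl, rfl, rfl, rfl, rfl⟩ | he
    · exact h2
    · exact h1 j q' t m' g w he

theorem frc_mono {i : I} {p q : Cond I} {c : ℕ → Cond I} {u : ℕ → ℕ} {N M : ℕ} (h : q ≤ p)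
    (hNM : N ≤ M) (hf : Frc i p c u N) : Frc i q c u M := by
  intro q' hq' hqq
  obtain ⟨r, hr, hrq, h'⟩ := hf q' hq' (hqq.trans h)
  refine ⟨r, hr, hrq, ?_⟩
  rcases h' with ⟨k, hk, h'⟩ | h'
  · exact Or.inl ⟨k, hk.trans hNM, h'⟩
  · exact Or.inr h'

theorem exists_frc (i : I) {p : Cond I} (hp : p.lt i) (m : ℕ) (c : ℕ → ℕ → Cond I)
    (u : ℕ → ℕ → ℕ) : ∃ q : Cond I, q.lt i ∧ q ≤ p ∧ ∃ N, ∀ l < m, Frc i q (c l) (u l) N := by
  induction m with
  | zero => exact ⟨p, hp, le_rfl, 0, fun l hl => absurd hl (Nat.not_lt_zero l)⟩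
  | succ m ih =>
    obtain ⟨q, hq, hqp, N, hN⟩ := ih
    by_cases h : ∃ r : Cond I, r.lt i ∧ r ≤ q ∧ ∃ k, r ≤ c m k
    · obtain ⟨r, hr, hrq, k, hk⟩ := h
      refine ⟨r, hr, hrq.trans hqp, max N (u m k), fun l hl => ?_⟩
      rcases Nat.lt_succ_iff_lt_or_eq.mp hl with h1 | rfl
      · exact frc_mono hrq (le_max_left _ _) (hN l h1)
      · intro q' hq' hqq
        exact ⟨q', hq', le_rfl, Or.inl ⟨k, le_max_right _ _, hqq.trans hk⟩⟩
    · refine ⟨q, hq, hqp, N, fun l hl => ?_⟩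
      rcases Nat.lt_succ_iff_lt_or_eq.mp hl with h1 | rfl
      · exact hN l h1
      · intro q' hq' hqq
        exact ⟨q', hq', le_rfl, Or.inr fun t ht htq k htk => h ⟨t, ht, htq.trans hqq, k, htk⟩⟩

/-- a condition is below its tail -/
theorem h55_cons_le {p : Cond I} {i : I} {hp : p.lt i} {s : List ℕ} {m : ℕ}
    {f : ℕ → ℕ → ℕ → Cond I} {hf : ∀ l n k, (f l n k).lt i} {v : ℕ → ℕ → ℕ → ℕ} :
    cons p i hp s m f hf v ≤ p := (le_cons_iff.1 le_rfl).1

/-- the stem at the top can be extended by forced values -/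
theorem h55_extend (i : I) {p : Cond I} (hp : p.lt i) (s : List ℕ) (m : ℕ)
    (f : ℕ → ℕ → ℕ → Cond I) (v : ℕ → ℕ → ℕ → ℕ) (a : ℕ) :
    ∃ q : Cond I, q.lt i ∧ q ≤ p ∧ ∃ t : List ℕ, s <+: t ∧ t.length = s.length + a ∧
      ∀ (n : ℕ) (h : n < t.length), s.length ≤ n → ∀ l < m, Frc i q (f l n) (v l n) t[n] := by
  induction a with
  | zero =>
    exact ⟨p, hp, le_rfl, s, List.prefix_rfl, rfl, fun n h h' => absurd h (not_lt.2 h')⟩
  | succ a ih =>
    obtain ⟨q, hq, hqp, t, hst, hlen, ht⟩ := ih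
    obtain ⟨q', hq', hqq, N, hN⟩ := exists_frc i hq m (fun l => f l t.length) (fun l => v l t.length)
    refine ⟨q', hq', hqq.trans hqp, t ++ [N], hst.trans (List.prefix_append t [N]), ?_, ?_⟩
    · rw [List.length_append, hlen]
      rfl
    · intro n h h' l hl
      rw [List.length_append, List.length_singleton] at h
      rcases Nat.lt_succ_iff_lt_or_eq.mp h with h1 | h1
      · rw [List.getElem_append_left h1]
        exact frc_mono hqq le_rfl (ht n h1 h' l hl)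
      · subst h1
        rw [List.getElem_append_right le_rfl]
        simpa using hN l hl

/-- below every condition without entries at `i` or above there is one with a long stem at `i` -/
theorem h55_new {p : Cond I} {i : I} (hp : p.lt i) (n : ℕ) :
    ∃ q ≤ p, (∀ j, i < j → q.lt j) ∧ ∃ q' s m f v, Ent q i q' s m f v ∧ n < s.length := by
  refine ⟨cons p i hp (List.replicate (n + 1) 0) 0 (fun _ _ _ => one) (fun _ _ _ => trivial)
    (fun _ _ _ => 0), h55_cons_le, fun j hj => hj, p, List.replicate (n + 1) 0, 0,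
    fun _ _ _ => one, fun _ _ _ => 0, ent_cons.2 (Or.inl ⟨rfl, rfl, rfl, rfl, rfl, rfl⟩), ?_⟩
  simp

theorem h55_long (i : I) (n : ℕ) (r : Raw I) : ∀ P : Cond I, P.1 = r →
    ∃ q : Cond I, q ≤ P ∧ (∀ j, i < j → P.lt j → q.lt j) ∧
      ∃ q' s m f v, Ent q i q' s m f v ∧ n < s.length := by
  induction r with
  | one =>
    intro P hP
    have hPi : P.lt i := by
      show P.1.lt i
      rw [hP]
      trivial
    obtain ⟨q, hq, h1, h2⟩ := h55_new hPi n
    exact ⟨q, hq, fun j hj _ => h1 j hj, h2⟩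
  | cons r0 j s m f v ih _ =>
    rintro ⟨P, hPW⟩ hP
    have hP' : P = .cons r0 j s m f v := hP
    subst hP'
    obtain ⟨hr0, hlt, hf⟩ := hPW
    obtain ⟨P0, hP0⟩ : ∃ P0 : Cond I, P0.1 = r0 := ⟨⟨r0, hr0⟩, rfl⟩
    obtain ⟨F, hF⟩ : ∃ F : ℕ → ℕ → ℕ → Cond I, ∀ l n k, (F l n k).1 = f l n k :=
      ⟨fun l n k => ⟨f l n k, (hf l n k).1⟩, fun _ _ _ => rfl⟩
    have hF' : ∀ l n k, (F l n k).lt j := fun l n k => by
      show (F l n k).1.lt j
      rw [hF]
      exact (hf l n k).2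
    have hlt' : P0.lt j := by
      show P0.1.lt j
      rw [hP0]
      exact hlt
    obtain ⟨P, hPdef⟩ : ∃ P : Cond I, P = ⟨.cons r0 j s m f v, ⟨hr0, hlt, hf⟩⟩ := ⟨_, rfl⟩
    have e : P = cons P0 j hlt' s m F hF' v := by
      rw [hPdef]
      apply Subtype.ext
      show Raw.cons r0 j s m f v = Raw.cons P0.1 j s m (fun l n k => (F l n k).1) v
      rw [hP0]
      congr 1
      funext l n k
      exact (hF l n k).symm
    rw [← hPdef, e]
    rcases lt_trichotomy j i with hji | rfl | hij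
    · obtain ⟨q, hq, h1, h2⟩ := h55_new (p := cons P0 j hlt' s m F hF' v) (i := i) hji n
      exact ⟨q, hq, fun j hj _ => h1 j hj, h2⟩
    · obtain ⟨q, hq, hqp, t, hst, hlen, ht⟩ := h55_extend j (p := P0) hlt' s m F v (n + 1)
      refine ⟨cons q j hq t m F hF' v, ?_, fun j' hj' _ => hj', q, t, m, F, v,
        ent_cons.2 (Or.inl ⟨rfl, rfl, rfl, rfl, rfl, rfl⟩), by omega⟩
      rw [le_cons_iff]
      exact ⟨h55_cons_le.trans hqp, q, t, m, F, v,
        ent_cons.2 (Or.inl ⟨rfl, rfl, rfl, rfl, rfl, rfl⟩), hst,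
        fun l hl => ⟨l, hl, rfl, rfl⟩, ht⟩
    · obtain ⟨q, hq, h1, q', s', m', f', v', h2, h3⟩ := ih P0 hP0
      have hqj : q.lt j := h1 j hij hlt'
      refine ⟨cons q j hqj s m F hF' v, ?_, fun j' _ hj' => hj', q', s', m', f', v',
        ent_cons.2 (Or.inr h2), h3⟩
      rw [le_cons_iff]
      exact ⟨h55_cons_le.trans hq, q, s, m, F, v,
        ent_cons.2 (Or.inl ⟨rfl, rfl, rfl, rfl, rfl, rfl⟩), List.prefix_rfl,
        fun l hl => ⟨l, hl, rfl, rfl⟩, fun n h h' => absurd h (not_lt.2 h')⟩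

theorem exists_long_stem (p : Cond I) (i : I) (n : ℕ) :
    ∃ q ≤ p, ∃ q' s m f v, Ent q i q' s m f v ∧ n < s.length := by
  obtain ⟨q, hq, _, h⟩ := h55_long i n p.1 p rfl
  exact ⟨q, hq, h⟩

end Cond

end Pool.Agent.Helper33.HM
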